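import Pool.Agent.TMX.Stmts

/-!
# TMX row XB: the mass of the right tangent ball
-/

set_option autoImplicit false

namespace Pool.Agent.TMX.H46

open Finset
open Pool.Agent.Helper51_Max (I IsMax)

theorem xb : XB := by
  intro hTan hGap hT12 N g M k w l hM hB hu0 hu y z z' r hky hyz hzz' hz'l hMy hMz' hm1 hp1 hopt
  have hgl : ∀ v, v ≤ N → g v ≤ M v := fun v hv => Pool.Agent.Helper37_EM.g_le hM hv
  have hlN := hB.lN
  have hbd : ∀ i, y ≤ i → i ≤ z' → g i ≤ max (M y) (M z') := by
    intro i h1 h2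
    rcases Nat.le_total i w with h | h
    · have := hB.dn1 y i hky h1 h
      exact le_trans (le_trans this (hgl y (by omega))) (le_max_left _ _)
    · have := hB.up2 i z' h h2 hz'l
      exact le_trans (le_trans this (hgl z' (by omega))) (le_max_right _ _)
  obtain ⟨hrz, hzN, hzy, hz'z, hz'y, -, -⟩ :=
    hGap hTan N g M hM y z z' r hyz hzz' (by omega) hMy hMz' hopt hbd
  obtain ⟨hk1, hl1⟩ :=
    hT12 hTan hGap N g M k w l hM hB y z z' r hky hyz hzz' hz'l hMy hMz' hm1 hp1 hopt
  have hcardI : ∀ v ρ, ρ ≤ v → v + ρ ≤ N → I N v ρ = Icc (v - ρ) (v + ρ) ∧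
      ((I N v ρ).card : ℝ) = 2 * (ρ : ℝ) + 1 := by
    intro v ρ h1 h2
    have e1 : I N v ρ = Icc (v - ρ) (v + ρ) := by
      unfold I
      rw [min_eq_left h2]
    refine ⟨e1, ?_⟩
    rw [e1, Nat.card_Icc]
    have : v + ρ + 1 - (v - ρ) = 2 * ρ + 1 := by omega
    rw [this]
    push_cast
    ring
  have ball : ∀ v ρ, ρ ≤ v → v + ρ ≤ N →
      ∑ i ∈ Icc (v - ρ) (v + ρ), g i ≤ M v * (2 * (ρ : ℝ) + 1) := by
    intro v ρ h1 h2
    have h := hM.le v (by omega) ρ
    obtain ⟨e1, e2⟩ := hcardI v ρ h1 h2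
    rw [e2, e1] at h
    exact h
  have hopt' : M z * (2 * (r : ℝ) + 1) = ∑ i ∈ Icc (z - r) (z + r), g i := by
    obtain ⟨e1, e2⟩ := hcardI z r (by omega) (by omega)
    rw [e2, e1] at hopt
    exact hopt
  have hMw : g w < M z := lt_of_le_of_lt (le_trans (hu y (by omega)) (hgl y (by omega))) hMy
  have hr2 : 2 ≤ r := by omega
  obtain ⟨m, hm⟩ : ∃ m, z + r = m + 2 := ⟨z + r - 2, by omega⟩
  -- (i)
  have hi : 2 * M z ≤ g (m + 1) + g (m + 2) := by
    have h := ball (z - 1) (r - 1) (by omega) (by omega)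
    have e3 : z - 1 - (r - 1) = z - r := by omega
    have e4 : z - 1 + (r - 1) = m := by omega
    have e5 : ((r - 1 : ℕ) : ℝ) = (r : ℝ) - 1 := by
      rw [Nat.cast_sub (by omega)]
      simp
    rw [e3, e4, e5] at h
    rw [hm, Finset.sum_Icc_succ_top (by omega), Finset.sum_Icc_succ_top (by omega)] at hopt'
    have hr' : (2 : ℝ) ≤ (r : ℝ) := by exact_mod_cast hr2
    have h2 : M (z - 1) * (2 * ((r : ℝ) - 1) + 1) ≤ M z * (2 * ((r : ℝ) - 1) + 1) :=
      mul_le_mul_of_nonneg_right hm1 (by linarith)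
    linarith
  set T := Icc (2 * z' - (z + r)) (z + r) with hT
  rcases lt_trichotomy l (z + r) with hlt | heq | hgt
  · -- (a)
    have hle : g (m + 2) ≤ g (m + 1) := hB.dn2 (m + 1) (m + 2) (by omega) (by omega) (by omega)
    have hge : M z ≤ g (m + 1) := by linarith
    have hl_mem : l ∈ T := by
      rw [hT, mem_Icc]
      omega
    have he_mem : m + 2 ∈ T.erase l := by
      rw [hT, mem_erase, mem_Icc]
      omega
    rw [← Finset.add_sum_erase T _ hl_mem, ← Finset.add_sum_erase (T.erase l) _ he_mem]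
    have hnn : 0 ≤ ∑ x ∈ (T.erase l).erase (m + 2), (g x - g w) := by
      apply Finset.sum_nonneg
      intro i hi'
      rw [mem_erase, mem_erase, hT, mem_Icc] at hi'
      rcases Nat.le_total i l with h | h
      · have := hu i h
        linarith
      · have := hB.dn2 i (m + 1) h (by omega) (by omega)
        linarith
    have hg0 := hM.nonneg (m + 2)
    linarith
  · -- (b)
    have hl_mem : l ∈ T := by
      rw [hT, mem_Icc]
      omega
    rw [← Finset.add_sum_erase T _ hl_mem]
    have hnn : 0 ≤ ∑ x ∈ T.erase l, (g x - g w) := by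
      apply Finset.sum_nonneg
      intro i hi'
      rw [mem_erase, hT, mem_Icc] at hi'
      have := hu i (by omega)
      linarith
    linarith
  · -- (c)
    have hl : l = z + r + 1 := by omega
    have h1 : g l ≤ 2 * M z := by
      have h := ball z (r + 1) (by omega) (by omega)
      have e3 : z - r = z - (r + 1) + 1 := by omega
      have e4 : z + (r + 1) = z + r + 1 := by omega
      rw [e4, Finset.sum_Icc_succ_top (by omega), ← Finset.add_sum_Ioc_eq_sum_Icc (by omega)] at h
      have e6 : Ioc (z - (r + 1)) (z + r) = Icc (z - r) (z + r) := by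
        ext i
        rw [mem_Ioc, mem_Icc]
        omega
      rw [e6, ← hopt'] at h
      have hg0 := hM.nonneg (z - (r + 1))
      rw [hl]
      push_cast at h
      linarith
    have h2 := ball y (y + r - z) (by omega) (by omega)
    have e7 : y - (y + r - z) = z - r := by omega
    have e8 : ((y + r - z : ℕ) : ℝ) = (y : ℝ) + r - z := by
      rw [Nat.cast_sub (by omega)]
      push_cast
      ring
    rw [e7, e8] at h2
    have hsplit : ∑ i ∈ Icc (z - r) (z + r), g i =
        ∑ i ∈ Icc (z - r) (y + (y + r - z)), g i + ∑ i ∈ Ioc (y + (y + r - z)) (z + r), g i := by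
      rw [← Finset.sum_union]
      · congr 1
        ext i
        rw [mem_union, mem_Icc, mem_Icc, mem_Ioc]
        omega
      · rw [Finset.disjoint_left]
        intro i hi1 hi2
        rw [mem_Icc] at hi1
        rw [mem_Ioc] at hi2
        omega
    have hyz' : (y : ℝ) + 1 ≤ z := by exact_mod_cast hyz
    have hzr : (z : ℝ) ≤ y + r := by exact_mod_cast hzy
    have h3 : M y * (2 * ((y : ℝ) + r - z) + 1) ≤ M z * (2 * ((y : ℝ) + r - z) + 1) :=
      mul_le_mul_of_nonneg_right hMy.le (by linarith)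
    have h4 : 2 * ((z : ℝ) - y) * M z ≤ ∑ i ∈ Ioc (y + (y + r - z)) (z + r), g i := by
      have : ∑ i ∈ Ioc (y + (y + r - z)) (z + r), g i =
          M z * (2 * (r : ℝ) + 1) - ∑ i ∈ Icc (z - r) (y + (y + r - z)), g i := by
        rw [hopt', hsplit]
        ring
      rw [this]
      nlinarith
    have h5 : ∑ i ∈ Ioc (y + (y + r - z)) (z + r), (g i - g w) ≤ ∑ i ∈ T, (g i - g w) := by
      apply Finset.sum_le_sum_of_subset_of_nonneg
      · intro i hi'
        rw [mem_Ioc] at hi'
        rw [hT, mem_Icc]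
        omega
      · intro i hi' _
        rw [hT, mem_Icc] at hi'
        have := hu i (by omega)
        linarith
    have h6 : ∑ i ∈ Ioc (y + (y + r - z)) (z + r), (g i - g w) =
        ∑ i ∈ Ioc (y + (y + r - z)) (z + r), g i - 2 * ((z : ℝ) - y) * g w := by
      rw [Finset.sum_sub_distrib, Finset.sum_const, Nat.card_Ioc]
      have : z + r - (y + (y + r - z)) = 2 * (z - y) := by omega
      rw [this, nsmul_eq_mul]
      push_cast [Nat.cast_sub hyz.le]
      ring
    have h7 : 2 * (M z - g w) ≤ 2 * ((z : ℝ) - y) * (M z - g w) := by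
      have : (1 : ℝ) ≤ (z : ℝ) - y := by linarith
      nlinarith
    linarith

end Pool.Agent.TMX.H46
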